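import Pool.Agent.H85.BC.Basic

/-!
# bcg_modules row BES (helper2): Cauchy-Schwarz for the map x to the sum of m_a x m_a*
-/

set_option autoImplicit false

open Finset

namespace Pool.Agent.H2.BC

open Pool.Agent.H85.BC

theorem pf_BES {H : Type} [NormedAddCommGroup H] [InnerProductSpace ℂ H] [CompleteSpace H] :
    T_BES (H := H) := by
  intro N ξ hN k K m y hm hy
  set S : Fin k → Fin k → (H →L[ℂ] H) := fun a b => ∑ i, star (y i) * star (m a) * (m b * y i)
    with hS
  set P : Fin K → Fin K → (H →L[ℂ] H) := fun i j => ∑ a, m a * (y i * star (y j)) * star (m a)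
    with hP
  have hPmem : ∀ i j, P i j ∈ N := fun i j => sum_mem' N _ _ fun a _ =>
    mul_mem (mul_mem (hm a) (mul_mem (hy i) (star_mem (hy j)))) (star_mem (hm a))
  have hPstar : ∀ i j, star (P i j) = P j i := by
    intro i j
    simp only [hP, star_sum, star_mul, star_star, mul_assoc]
  have hSstar : ∀ a b, star (S a b) = S b a := by
    intro a b
    simp only [hS, star_sum, star_mul, star_star, mul_assoc]
  -- the diagonal
  have hdiag : ∀ a, tr ξ (S a a) = ((∑ i, ‖(m a * y i) ξ‖ ^ 2 : ℝ) : ℂ) := by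
    intro a
    simp only [hS]
    rw [tr_sum]
    push_cast
    refine sum_congr rfl fun i _ => ?_
    have h1 : star (y i) * star (m a) * (m a * y i) = star (m a * y i) * (m a * y i) := by
      rw [star_mul]
    rw [h1, tr_star_mul_self]
    push_cast
    rfl
  have hle : ∀ a, ∑ i, ‖(m a * y i) ξ‖ ^ 2 ≤ ‖(S a a) ξ‖ := by
    intro a
    have h1 : ‖tr ξ (S a a)‖ ≤ ‖ξ‖ * ‖(S a a) ξ‖ := norm_inner_le_norm _ _
    rw [hdiag a, Complex.norm_real, hN.norm_eq, one_mul] at h1
    exact (le_abs_self _).trans h1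
  -- the double sum
  have hkey : ∑ a, ∑ b, ‖(S a b) ξ‖ ^ 2 = ∑ i, ∑ j, ‖(P i j) ξ‖ ^ 2 := by
    have hcast : ((∑ a, ∑ b, ‖(S a b) ξ‖ ^ 2 : ℝ) : ℂ) = ((∑ i, ∑ j, ‖(P i j) ξ‖ ^ 2 : ℝ) : ℂ) := by
      have hL : ((∑ a, ∑ b, ‖(S a b) ξ‖ ^ 2 : ℝ) : ℂ) =
          ∑ a, ∑ b, ∑ i, ∑ j, tr ξ ((m a * (y i * star (y j)) * star (m a)) *
            (m b * (y j * star (y i)) * star (m b))) := by
        push_cast
        refine sum_congr rfl fun a _ => sum_congr rfl fun b _ => ?_
        have h1 : ((‖(S a b) ξ‖ : ℂ)) ^ 2 = tr ξ (star (S a b) * S a b) := by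
          rw [tr_star_mul_self]
          push_cast
          rfl
        rw [h1, hSstar]
        simp only [hS]
        rw [sum_mul, tr_sum]
        refine sum_congr rfl fun i _ => ?_
        rw [mul_sum, tr_sum]
        refine sum_congr rfl fun j _ => ?_
        have h2 : star (y i) * star (m b) * (m a * y i) * (star (y j) * star (m a) * (m b * y j))
            = (star (y i) * star (m b)) *
              ((m a * y i) * (star (y j) * star (m a) * (m b * y j))) := by
          simp only [mul_assoc]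
        rw [h2, hN.trace _ (mul_mem (star_mem (hy i)) (star_mem (hm b))) _
          (mul_mem (mul_mem (hm a) (hy i))
            (mul_mem (mul_mem (star_mem (hy j)) (star_mem (hm a))) (mul_mem (hm b) (hy j))))]
        congr 1
      have hR : ((∑ i, ∑ j, ‖(P i j) ξ‖ ^ 2 : ℝ) : ℂ) =
          ∑ i, ∑ j, ∑ a, ∑ b, tr ξ ((m a * (y i * star (y j)) * star (m a)) *
            (m b * (y j * star (y i)) * star (m b))) := by
        push_cast
        refine sum_congr rfl fun i _ => sum_congr rfl fun j _ => ?_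
        have h1 : ((‖(P i j) ξ‖ : ℂ)) ^ 2 = tr ξ (P i j * P j i) := by
          have h2 : P i j * P j i = star (star (P i j)) * star (P i j) := by
            rw [star_star, hPstar]
          rw [h2, tr_star_mul_self, hN.norm_star (hPmem i j)]
          push_cast
          rfl
        rw [h1]
        simp only [hP]
        rw [sum_mul, tr_sum]
        refine sum_congr rfl fun a _ => ?_
        rw [mul_sum, tr_sum]
      rw [hL, hR]
      calc ∑ a, ∑ b, ∑ i, ∑ j, tr ξ ((m a * (y i * star (y j)) * star (m a)) *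
            (m b * (y j * star (y i)) * star (m b)))
          = ∑ a, ∑ i, ∑ b, ∑ j, tr ξ ((m a * (y i * star (y j)) * star (m a)) *
            (m b * (y j * star (y i)) * star (m b))) :=
            sum_congr rfl fun a _ => sum_comm
        _ = ∑ i, ∑ a, ∑ b, ∑ j, tr ξ ((m a * (y i * star (y j)) * star (m a)) *
            (m b * (y j * star (y i)) * star (m b))) := sum_comm
        _ = ∑ i, ∑ a, ∑ j, ∑ b, tr ξ ((m a * (y i * star (y j)) * star (m a)) *
            (m b * (y j * star (y i)) * star (m b))) :=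
            sum_congr rfl fun i _ => sum_congr rfl fun a _ => sum_comm
        _ = _ := sum_congr rfl fun i _ => sum_comm
    exact_mod_cast hcast
  have hA : (∑ i, ∑ a, ‖(m a * y i) ξ‖ ^ 2) ≤ ∑ a, ‖(S a a) ξ‖ := by
    rw [sum_comm]
    exact sum_le_sum fun a _ => hle a
  have hA0 : 0 ≤ ∑ i, ∑ a, ‖(m a * y i) ξ‖ ^ 2 :=
    sum_nonneg fun i _ => sum_nonneg fun a _ => sq_nonneg _
  have hB : (∑ a, ‖(S a a) ξ‖) ^ 2 ≤ k * ∑ a, ‖(S a a) ξ‖ ^ 2 := by
    have h1 := sq_sum_le_card_mul_sum_sq (s := (univ : Finset (Fin k)))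
      (f := fun a => ‖(S a a) ξ‖)
    rw [card_univ, Fintype.card_fin] at h1
    exact h1
  have hC : ∑ a, ‖(S a a) ξ‖ ^ 2 ≤ ∑ a, ∑ b, ‖(S a b) ξ‖ ^ 2 :=
    sum_le_sum fun a _ => single_le_sum (f := fun b => ‖(S a b) ξ‖ ^ 2)
      (fun b _ => sq_nonneg _) (mem_univ a)
  calc (∑ i, ∑ a, ‖(m a * y i) ξ‖ ^ 2) ^ 2 ≤ (∑ a, ‖(S a a) ξ‖) ^ 2 :=
        pow_le_pow_left₀ hA0 hA 2
    _ ≤ k * ∑ a, ‖(S a a) ξ‖ ^ 2 := hB
    _ ≤ k * ∑ a, ∑ b, ‖(S a b) ξ‖ ^ 2 := mul_le_mul_of_nonneg_left hC (Nat.cast_nonneg k)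
    _ = k * ∑ i, ∑ j, ‖(P i j) ξ‖ ^ 2 := by rw [hkey]

end Pool.Agent.H2.BC
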